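import Pool.Agent.helper60.RF.SpecB

set_option autoImplicit false

/-!
# RF (MP_16912e_nt), row TYP: the number of types
-/

namespace Pool.Agent.RF

open NumberField

theorem TYP_vv (F : Type) [Field F] [NumberField F] (P : Ideal (𝓞 F)) (hP : P.IsPrime) (hP0 : P ≠ ⊥) (n : ℕ) (hn : n ≠ 0) :
    2 ^ vv P (n : 𝓞 F) ≤ n ^ Module.finrank ℚ F := by
  classical
  have hn0 : Ideal.span {(n : 𝓞 F)} ≠ ⊥ := by
    rw [Ne, Ideal.span_singleton_eq_bot]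
    exact Nat.cast_ne_zero.2 hn
  have h1 : P ^ vv P (n : 𝓞 F) ∣ Ideal.span {(n : 𝓞 F)} := by
    have h2 : Multiset.replicate (vv P (n : 𝓞 F)) P ≤ UniqueFactorizationMonoid.normalizedFactors (Ideal.span {(n : 𝓞 F)}) := by
      rw [← Multiset.le_count_iff_replicate_le]
      unfold vv
      exact le_of_eq (by congr)
    have h3 := Multiset.prod_dvd_prod_of_le h2
    rw [Multiset.prod_replicate] at h3
    rwa [Ideal.prod_normalizedFactors_eq_self hn0] at h3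
  have h4 := map_dvd Ideal.absNorm h1
  rw [map_pow, Ideal.absNorm_span_natCast, RingOfIntegers.rank] at h4
  have h5 : 2 ≤ Ideal.absNorm P := by
    have h6 : Ideal.absNorm P ≠ 0 := by
      rw [Ne, Ideal.absNorm_eq_zero_iff]
      exact hP0
    have h7 : Ideal.absNorm P ≠ 1 := by
      rw [Ne, Ideal.absNorm_eq_one_iff]
      exact hP.ne_top
    omega
  exact (Nat.pow_le_pow_left h5 _).trans (Nat.le_of_dvd (Nat.pow_pos (Nat.pos_of_ne_zero hn)) h4)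

theorem TYP_l (F : Type) [Field F] [NumberField F] (P : Ideal (𝓞 F)) (hP : P.IsPrime) (g : ℕ) :
    0 < g → (g : 𝓞 F) ∈ P → ∃ l : ℕ, l.Prime ∧ l ∣ g ∧ (l : 𝓞 F) ∈ P := by
  induction g using induction_on_primes with
  | zero => intro h; exact absurd h (lt_irrefl 0)
  | one =>
    intro _ h
    rw [Nat.cast_one] at h
    exact absurd ((Ideal.eq_top_iff_one P).2 h) hP.ne_top
  | prime_mul q a hq ih =>
    intro h0 h
    rw [Nat.cast_mul] at h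
    rcases hP.mem_or_mem h with h1 | h1
    · exact ⟨q, hq, dvd_mul_right _ _, h1⟩
    · obtain ⟨l, h2, h3, h4⟩ := ih (Nat.pos_of_mul_pos_left h0) h1
      exact ⟨l, h2, h3.trans (dvd_mul_left _ _), h4⟩

theorem TYP_Q (F : Type) [Field F] [NumberField F] (hF : Module.finrank ℚ F = 4) (g : ℕ) (hg : 0 < g) :
    ∃ Q : Finset (Ideal (𝓞 F)), Q.card ≤ 4 * g.primeFactors.card ∧ (∀ P ∈ Q, P.IsPrime ∧ P ≠ ⊥) ∧
      ∀ P : Ideal (𝓞 F), P.IsPrime → (g : 𝓞 F) ∈ P → P ∈ Q := by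
  classical
  have hne : ∀ l ∈ g.primeFactors, Ideal.span {(l : ℤ)} ≠ ⊥ := by
    intro l hl
    rw [Ne, Ideal.span_singleton_eq_bot]
    have := (Nat.prime_of_mem_primeFactors hl).ne_zero
    exact_mod_cast this
  have hmax : ∀ l : ℕ, l.Prime → (Ideal.span {(l : ℤ)}).IsMaximal := by
    intro l hl
    have h1 : (Ideal.span {(l : ℤ)}).IsPrime := by
      rw [Ideal.span_singleton_prime (by exact_mod_cast hl.ne_zero)]
      exact Nat.prime_iff_prime_int.1 hl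
    exact h1.isMaximal (by
      rw [Ne, Ideal.span_singleton_eq_bot]
      exact_mod_cast hl.ne_zero)
  refine ⟨g.primeFactors.biUnion fun l => IsDedekindDomain.primesOverFinset (Ideal.span {(l : ℤ)}) (𝓞 F), ?_, ?_, ?_⟩
  · refine Finset.card_biUnion_le.trans ?_
    have h1 : ∀ l ∈ g.primeFactors, (IsDedekindDomain.primesOverFinset (Ideal.span {(l : ℤ)}) (𝓞 F)).card ≤ 4 := by
      intro l hl
      have := hmax l (Nat.prime_of_mem_primeFactors hl)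
      have h2 := Ideal.card_primesOverFinset_le_finrank (𝓞 F) ℚ F (hne l hl)
      rwa [hF] at h2
    refine (Finset.sum_le_sum h1).trans ?_
    rw [Finset.sum_const, smul_eq_mul, mul_comm]
  · intro P hP
    rw [Finset.mem_biUnion] at hP
    obtain ⟨l, hl, hP⟩ := hP
    have := hmax l (Nat.prime_of_mem_primeFactors hl)
    rw [IsDedekindDomain.mem_primesOverFinset_iff (hne l hl)] at hP
    obtain ⟨h1, h2⟩ := hP
    refine ⟨h1, fun h3 => ?_⟩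
    have h4 : (l : ℤ) ∈ P.under ℤ := by
      rw [← h2.over]
      exact Ideal.mem_span_singleton_self _
    have h5 : algebraMap ℤ (𝓞 F) (l : ℤ) ∈ P := h4
    rw [h3, Ideal.mem_bot] at h5
    have h6 : (l : 𝓞 F) = 0 := by simpa using h5
    exact (Nat.prime_of_mem_primeFactors hl).ne_zero (by exact_mod_cast h6)
  · intro P hP hgP
    obtain ⟨l, h1, h2, h3⟩ := TYP_l F P hP g hg hgP
    have hl : l ∈ g.primeFactors := Nat.mem_primeFactors.2 ⟨h1, h2, hg.ne'⟩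
    rw [Finset.mem_biUnion]
    refine ⟨l, hl, ?_⟩
    have := hmax l h1
    rw [IsDedekindDomain.mem_primesOverFinset_iff (hne l hl)]
    refine ⟨hP, ⟨?_⟩⟩
    refine (hmax l h1).eq_of_le ?_ ?_
    · exact (Ideal.IsPrime.under ℤ P).ne_top
    · rw [Ideal.span_singleton_le_iff_mem]
      show algebraMap ℤ (𝓞 F) (l : ℤ) ∈ P
      simpa using h3

theorem TYP_bd (h2 : VVM_stmt) (F : Type) [Field F] [NumberField F] (hF : Module.finrank ℚ F = 4) (P : Ideal (𝓞 F)) (hP : P.IsPrime) (hP0 : P ≠ ⊥)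
    (c : ℤ) (hc : 0 < c) (N : ℝ) (hN : (c : ℝ) ≤ N) (x : 𝓞 F) (hx : x ∣ ((c : ℤ) : 𝓞 F) ^ 2) : (vv P x : ℝ) ≤ 8 * Real.logb 2 N := by
  obtain ⟨m, rfl⟩ : ∃ m : ℕ, c = m := ⟨c.toNat, (Int.toNat_of_nonneg hc.le).symm⟩
  have hm : 0 < m := by exact_mod_cast hc
  have hm1 : (m : ℝ) ≤ N := by exact_mod_cast hN
  have hmR : (0 : ℝ) < m := by exact_mod_cast hm
  have e1 : (((m : ℕ) : ℤ) : 𝓞 F) ^ 2 = ((m ^ 2 : ℕ) : 𝓞 F) := by push_cast; ring
  rw [e1] at hx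
  have e2 : ((m ^ 2 : ℕ) : 𝓞 F) ≠ 0 := Nat.cast_ne_zero.2 (pow_pos hm 2).ne'
  have e3 := (h2 F P hP hP0).2.2 x _ e2 hx
  have e4 := TYP_vv F P hP hP0 (m ^ 2) (pow_pos hm 2).ne'
  rw [hF] at e4
  have e5 : (2 : ℝ) ^ vv P x ≤ N ^ 8 := by
    have e6 : (2 : ℝ) ^ vv P x ≤ (2 : ℝ) ^ vv P ((m ^ 2 : ℕ) : 𝓞 F) := pow_le_pow_right₀ (by norm_num) e3
    have e7 : (2 : ℝ) ^ vv P ((m ^ 2 : ℕ) : 𝓞 F) ≤ ((m ^ 2 : ℕ) : ℝ) ^ 4 := by exact_mod_cast e4
    have e8 : ((m ^ 2 : ℕ) : ℝ) ^ 4 = (m : ℝ) ^ 8 := by push_cast; ring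
    rw [e8] at e7
    exact (e6.trans e7).trans (pow_le_pow_left₀ hmR.le hm1 8)
  have e9 := Real.logb_le_logb_of_le (b := 2) (by norm_num) (by positivity) e5
  rw [Real.logb_pow, Real.logb_pow, Real.logb_self_eq_one (by norm_num), mul_one] at e9
  exact_mod_cast e9

theorem TYP (h1 : TID_stmt) (h2 : VVM_stmt) (h3 : POS_stmt) : TYP_stmt := by
  classical
  intro D₀ F _ _ C f g hF hg N B hN hB S hS hT
  obtain ⟨Q, hQ1, hQ2, hQ3⟩ := TYP_Q F hF g hg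
  have hL1 : 1 ≤ Real.logb 2 N := by
    rw [Real.le_logb_iff_rpow_le (by norm_num) (by linarith), Real.rpow_one]
    exact hN
  obtain ⟨L, hL⟩ : ∃ L, L = Real.logb 2 N := ⟨_, rfl⟩
  rw [← hL] at hL1 ⊢
  -- iterates of σ
  have hit : ∀ (c : ℤ) (j : ℕ) (x : 𝓞 F), x ∣ ((c : ℤ) : 𝓞 F) ^ 2 → (⇑C.σ)^[j] x ∣ ((c : ℤ) : 𝓞 F) ^ 2 := by
    intro c j x hx
    induction j with
    | zero => exact hx
    | succ j ih =>
      rw [Function.iterate_succ_apply']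
      have e1 := map_dvd C.σ ih
      rwa [map_pow, map_intCast] at e1
  -- the bounds
  have hnn : ∀ z : OO, ((z.norm : ℤ) : 𝓞 F) = C.ι z * C.ι (star z) := by
    intro z
    rw [← map_mul, ← QuadraticAlgebra.algebraMap_norm_eq_mul_star]
    simp
  have hb1 : ∀ p ∈ S, ∀ P ∈ Q, ∀ j : ℕ, (vv P ((⇑C.σ)^[j] (th C f p)) : ℝ) ≤ 8 * L := by
    intro p hp P hP j
    obtain ⟨q1, q2, q3, q4, q5⟩ := hS p hp
    obtain ⟨r1, -, -, -, -⟩ := h1 D₀ F C p f q1 q2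
    obtain ⟨-, -, s1, -⟩ := h3 p q1
    rw [hL]
    refine TYP_bd h2 F hF P (hQ2 P hP).1 (hQ2 P hP).2 p.n.norm s1 N ?_ _ (hit _ j _ ?_)
    · rw [abs_of_pos s1] at q4
      have : (p.n.norm : ℝ) ≤ (p.D : ℝ) := by exact_mod_cast q4
      linarith
    · rw [hnn]
      refine (Dvd.intro _ r1).trans ⟨C.ι (star p.n), ?_⟩
      rw [map_mul, map_pow]
      ring
  have hb2 : ∀ p ∈ S, ∀ P ∈ Q, ∀ j : ℕ, (vv P ((⇑C.σ)^[j] (C.ι p.n)) : ℝ) ≤ 8 * L := by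
    intro p hp P hP j
    obtain ⟨q1, q2, q3, q4, q5⟩ := hS p hp
    obtain ⟨-, -, s1, -⟩ := h3 p q1
    rw [hL]
    refine TYP_bd h2 F hF P (hQ2 P hP).1 (hQ2 P hP).2 p.n.norm s1 N ?_ _ (hit _ j _ ?_)
    · rw [abs_of_pos s1] at q4
      have : (p.n.norm : ℝ) ≤ (p.D : ℝ) := by exact_mod_cast q4
      linarith
    · rw [hnn]
      exact ⟨C.ι (star p.n) * (C.ι p.n * C.ι (star p.n)), by ring⟩
  -- the types
  obtain ⟨ty, hty⟩ : ∃ ty : Pt → (↥Q × Fin 4 × Fin 2 → ℕ), ty = fun p x => if x.2.2 = 0 then vv (x.1 : Ideal (𝓞 F)) ((⇑C.σ)^[(x.2.1 : ℕ)] (th C f p)) else vv (x.1 : Ideal (𝓞 F)) ((⇑C.σ)^[(x.2.1 : ℕ)] (C.ι p.n)) := ⟨_, rfl⟩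
  have hmem : ∀ p ∈ S, ty p ∈ Fintype.piFinset (fun _ : ↥Q × Fin 4 × Fin 2 => Finset.range (⌊8 * L⌋₊ + 1)) := by
    intro p hp
    rw [Fintype.mem_piFinset]
    rintro ⟨P, j, i⟩
    rw [Finset.mem_range, Nat.lt_succ_iff, hty]
    show (if i = 0 then vv (P : Ideal (𝓞 F)) ((⇑C.σ)^[(j : ℕ)] (th C f p)) else vv (P : Ideal (𝓞 F)) ((⇑C.σ)^[(j : ℕ)] (C.ι p.n))) ≤ ⌊8 * L⌋₊
    refine Nat.le_floor ?_
    split_ifs
    · exact hb1 p hp P P.2 j
    · exact hb2 p hp P P.2 j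
  have hfib : ∀ b ∈ Fintype.piFinset (fun _ : ↥Q × Fin 4 × Fin 2 => Finset.range (⌊8 * L⌋₊ + 1)), ((S.filter fun p => ty p = b).card : ℝ) ≤ B := by
    intro b _
    refine hT _ (Finset.filter_subset _ _) fun p hp q hq => ?_
    rw [Finset.mem_filter] at hp hq
    have e1 : ty p = ty q := hp.2.trans hq.2.symm
    obtain ⟨q1, q2, -⟩ := hS p hp.1
    obtain ⟨-, -, -, -, r4⟩ := h1 D₀ F C p f q1 q2
    have hper : ∀ x : 𝓞 F, ∀ j : ℕ, (⇑C.σ)^[j] x = (⇑C.σ)^[j % 4] x := by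
      intro x j
      have e2 : Function.IsPeriodicPt (⇑C.σ) 4 x := r4 x
      exact (e2.iterate_mod_apply j).symm
    intro P hP hgP j
    have hPQ := hQ3 P hP hgP
    have hj : j % 4 < 4 := Nat.mod_lt _ (by norm_num)
    have e3 := congrFun e1 (⟨P, hPQ⟩, ⟨j % 4, hj⟩, 0)
    have e4 := congrFun e1 (⟨P, hPQ⟩, ⟨j % 4, hj⟩, 1)
    rw [hty] at e3 e4
    simp only [if_true, one_ne_zero, if_false] at e3 e4
    rw [hper (th C f p) j, hper (th C f q) j, hper (C.ι p.n) j, hper (C.ι q.n) j]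
    exact ⟨e3, e4⟩
  have hcard := Finset.card_eq_sum_card_fiberwise hmem
  have hc1 : (S.card : ℝ) ≤ ((⌊8 * L⌋₊ + 1 : ℕ) : ℝ) ^ (Q.card * (4 * 2)) * B := by
    rw [hcard, Nat.cast_sum]
    refine (Finset.sum_le_sum hfib).trans ?_
    rw [Finset.sum_const, nsmul_eq_mul]
    refine mul_le_mul_of_nonneg_right (le_of_eq ?_) hB
    rw [Fintype.card_piFinset, Finset.prod_const, Finset.card_range, Finset.card_univ, Fintype.card_prod, Fintype.card_prod, Fintype.card_coe, Fintype.card_fin, Fintype.card_fin,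
      Nat.cast_pow]
  refine hc1.trans (mul_le_mul_of_nonneg_right ?_ hB)
  have e1 : ((⌊8 * L⌋₊ + 1 : ℕ) : ℝ) ≤ (4 * L + 1) ^ 2 := by
    have e2 := Nat.floor_le (show 0 ≤ 8 * L by linarith)
    push_cast
    nlinarith
  have e3 : (1 : ℝ) ≤ 4 * L + 1 := by linarith
  calc ((⌊8 * L⌋₊ + 1 : ℕ) : ℝ) ^ (Q.card * (4 * 2)) ≤ ((4 * L + 1) ^ 2) ^ (Q.card * (4 * 2)) := pow_le_pow_left₀ (Nat.cast_nonneg _) e1 _
    _ = (4 * L + 1) ^ (2 * (Q.card * (4 * 2))) := by rw [← pow_mul]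
    _ ≤ (4 * L + 1) ^ (64 * g.primeFactors.card) := pow_le_pow_right₀ e3 (by omega)

end Pool.Agent.RF
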