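import Pool.Agent.helper13.RF.Spec2

/-! Project RF (MP_16912e_nt), row SPH: places which split in an intermediate field. -/

set_option autoImplicit false

open NumberField IsDedekindDomain
open scoped nonZeroDivisors

namespace Pool.Agent.RF

theorem SPH_card (F : Type) [Field F] [Finite F] (q : ℕ) (hq : 1 < q) (h : ∀ z : F, z ^ q = z) : Nat.card F ≤ q := by
  classical
  have := Fintype.ofFinite F
  rw [Nat.card_eq_fintype_card]
  have h1 : (Polynomial.X ^ q - Polynomial.X : Polynomial F) ≠ 0 := FiniteField.X_pow_card_sub_X_ne_zero F hq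
  have h2 : (Polynomial.X ^ q - Polynomial.X : Polynomial F).natDegree = q := FiniteField.X_pow_card_sub_X_natDegree_eq F hq
  have h3 : (Finset.univ : Finset F).card ≤ (Polynomial.X ^ q - Polynomial.X : Polynomial F).natDegree := by
    refine Polynomial.card_le_degree_of_subset_roots ?_
    intro z _
    rw [Polynomial.mem_roots h1, Polynomial.IsRoot.def]
    simp [h z]
  rw [h2] at h3
  exact h3

theorem SPH : SPH_stmt := by
  intro K M _ _ _ _ _ L g hg v hv
  obtain ⟨hq, P, hP, hPv, hFr⟩ := hv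
  have : NumberField L := inferInstance
  have hQp : (P.under (𝓞 L)).IsPrime := inferInstance
  have hQv : (P.under (𝓞 L)).under (𝓞 K) = v.asIdeal := by
    rw [Ideal.under_under, hPv]
  have hlo : (P.under (𝓞 L)).LiesOver v.asIdeal := ⟨hQv.symm⟩
  have hQ0 : P.under (𝓞 L) ≠ ⊥ := Ideal.ne_bot_of_liesOver_of_ne_bot v.ne_bot _
  refine ⟨P.under (𝓞 L), hQp, hQ0, hQv, ?_⟩
  have hmax : (P.under (𝓞 L)).IsMaximal := hQp.isMaximal hQ0
  have hpow : ∀ x : 𝓞 L, x ^ GK.nv K v - x ∈ P.under (𝓞 L) := by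
    intro x
    have h1 := hFr (algebraMap (𝓞 L) (𝓞 M) x)
    have h2 : g • (algebraMap (𝓞 L) (𝓞 M) x) = algebraMap (𝓞 L) (𝓞 M) x := by
      apply RingOfIntegers.ext
      show g (((x : L) : M)) = ((x : L) : M)
      exact hg _ (x : L).2
    rw [h2, ← map_pow, ← map_sub] at h1
    have h3 : x - x ^ GK.nv K v ∈ P.under (𝓞 L) := h1
    rw [← neg_sub]
    exact neg_mem h3
  have hcard : Ideal.absNorm (P.under (𝓞 L)) ≤ GK.nv K v := by
    let _ : Field (𝓞 L ⧸ P.under (𝓞 L)) := Ideal.Quotient.field _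
    have hfin : Finite (𝓞 L ⧸ P.under (𝓞 L)) := by
      exact Ideal.finiteQuotientOfFreeOfNeBot _ hQ0
    rw [Ideal.absNorm_apply, Submodule.cardQuot_apply]
    refine SPH_card _ _ hq.one_lt ?_
    intro z
    obtain ⟨x, rfl⟩ := Ideal.Quotient.mk_surjective z
    rw [← map_pow]
    exact Ideal.Quotient.eq.2 (hpow x)
  have h4 := Ideal.absNorm_pow_inertiaDeg v.asIdeal (P.under (𝓞 L))
  have h5 := Ideal.inertiaDeg_pos (P.under (𝓞 L)) (𝓞 K)
  have h6 : (GK.nv K v) ^ ((P.under (𝓞 L)).inertiaDeg (𝓞 K)) ≤ (GK.nv K v) ^ 1 := by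
    rw [pow_one]
    exact h4.le.trans hcard
  have h7 := (Nat.pow_le_pow_iff_right hq.one_lt).1 h6
  omega

end Pool.Agent.RF
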