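import Pool.Agent.helper13.RF.SpecU
import Pool.Agent.helper60.RF.NZB
import Pool.Agent.helper33.RF.TRA

/-! # RF (MP_16912e_nt), row rf:UZC -/

set_option autoImplicit false

namespace Pool.Agent.RF

open NumberField

/-- equal valuations give divisibility in `OO` -/
theorem UZC_dvd (h3 : UFX_stmt) (h4 : VV5_stmt) (D₀ : ℤ) (F : Type) [Field F] [NumberField F] (C : Ctx D₀ F) (hD : D₀ ≠ 0)
    (a b : OO) (ha : a ≠ 0) (hb : b ≠ 0)
    (h : ∀ P : Ideal (𝓞 F), P.IsPrime → P ≠ ⊥ → vv P (C.ι a) = vv P (C.ι b)) : a ∣ b := by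
  have hinj := NZB_inj C
  have ha' : C.ι a ≠ 0 := fun h0 => ha (hinj (by rw [h0, map_zero]))
  have hb' : C.ι b ≠ 0 := fun h0 => hb (hinj (by rw [h0, map_zero]))
  obtain ⟨y, hy⟩ := (h4 F).1 (C.ι a) (C.ι b) ha' hb' (fun P hP hP0 => (h P hP hP0).le)
  have h1 := congrArg (fun x => C.σ (C.σ x)) hy
  simp only [map_mul, C.σι, star_star] at h1
  have h2 : C.σ (C.σ y) = y := mul_left_cancel₀ ha' (h1.symm.trans hy)
  obtain ⟨c, hc⟩ := h3 D₀ F C hD y h2
  refine ⟨c, hinj ?_⟩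
  rw [hy, hc, map_mul]

theorem UZC (hWEU : WEU_stmt) (h1 : UZA_stmt) (h2 : UZB_stmt) (h3 : UFX_stmt) (h4 : VV5_stmt) : UZC_stmt := by
  intro D₀ F _ _ C p q f hsq hp hq hpD hqD hS hk hne z hz hfix
  obtain ⟨a1, a2, a3⟩ := h1 D₀ F C p q f hp hq hpD hqD z hz hfix
  have hb := h2 D₀ F C p q f hsq hp hq hpD hqD hS a2 a3
  have := hWEU.1
  have hD : D₀ ≠ 0 := by
    rintro rfl
    have := hp.D0
    rw [hpD] at this
    simp at this
  have hkk : p.k = q.k := hk (UZC_dvd h3 h4 D₀ F C hD p.k q.k hp.k0 hq.k0 hb)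
    (UZC_dvd h3 h4 D₀ F C hD q.k p.k hq.k0 hp.k0 fun P hP hP0 => (hb P hP hP0).symm)
  have h25' : (25 : OO) ≠ 0 := by
    intro h0
    have e1 := congrArg QuadraticAlgebra.re h0
    rw [QuadraticAlgebra.re_ofNat, QuadraticAlgebra.re_zero] at e1
    norm_num at e1
  have h25 : (25 : OO) * q.k ≠ 0 := mul_ne_zero h25' hq.k0
  have hX : p.X = q.X := by
    rw [hkk] at a1
    exact mul_right_cancel₀ h25 a1
  have hD2 : p.D = q.D := by rw [hpD, hqD]
  have n0 : p.n ≠ 0 := by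
    intro h0
    exact TRA_norm_ne p.n hp.n1 (by rw [h0, QuadraticAlgebra.norm_zero])
  have hn : p.n = q.n := by
    apply NZB_n _ _ n0
    rw [← hp.e1, ← hq.e1, hX, hD2, hkk]
  have hM : p.M = q.M := by
    have e := hp.e2
    rw [hn, hX, hkk, ← hq.e2] at e
    rw [hn] at n0
    exact mul_left_cancel₀ n0 e
  exact hne (Pt.ext hkk hX hn hM hD2)

end Pool.Agent.RF
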