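import Pool.Agent.helper33.RF.SpecL
import Pool.Agent.helper41.RF.MUL

set_option autoImplicit false

/-!
# RF (MP_16912e_nt), row YTR: three points, in coordinates
-/

namespace Pool.Agent.RF

open NumberField

theorem YTR (hTRI : TRI_stmt) : YTR_stmt := by
  intro D₀ F _ _ C o p q f g hg ho hp hq hoD hpD hqD z₁ z₂ z₃ h1 h2 h3 a₁ b₁ a₂ b₂ a b e1 e2 e3
  exact MUL_coe C z₁ z₂ z₃ o.n g (hTRI D₀ F C o p q f g hg ho hp hq hoD hpD hqD z₁ z₂ z₃ h1 h2 h3) a₁ b₁ a₂ b₂ a b e1 e2 e3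

end Pool.Agent.RF
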